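import Mathlib

/-!
# The homological Bieri-Neumann-Strebel-Renz invariants of a group: definitions

`Chr G` : the real characters of `G`; `mon χ` : the monoid `G_χ = {g | 0 ≤ χ g}`; `FP R n M` : the
(left) module `M` has type `FP_n` over `R`; `Triv Γ` : the integers with the trivial action of
`ℤ[Γ]`; `SigmaC G m` : the (cone over the) complement of `Σ^m(G, ℤ)`; `ConvLe m T` : the nonzero
vectors in the convex hull of `m`-element subsets of `T`.
-/

set_option autoImplicit false

namespace Pool.Agent.SM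

/-- The real characters of a group. -/
abbrev Chr (G : Type) [Group G] : Type := Additive G →+ ℝ

/-- The value of a character. -/
def ev {G : Type} [Group G] (χ : Chr G) (g : G) : ℝ := χ (Additive.ofMul g)

section

variable {G : Type} [Group G]

@[simp] theorem ev_one (χ : Chr G) : ev χ 1 = 0 := map_zero χ

@[simp] theorem ev_mul (χ : Chr G) (g h : G) : ev χ (g * h) = ev χ g + ev χ h := map_add χ _ _

@[simp] theorem ev_inv (χ : Chr G) (g : G) : ev χ g⁻¹ = -ev χ g := map_neg χ _

end

/-- The monoid `G_χ` of all `g` with `0 ≤ χ g`. -/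
def mon {G : Type} [Group G] (χ : Chr G) : Submonoid G where
  carrier := {g | 0 ≤ ev χ g}
  mul_mem' {a b} ha hb := by
    show 0 ≤ ev χ (a * b)
    rw [ev_mul]
    exact add_nonneg ha hb
  one_mem' := by
    show 0 ≤ ev χ 1
    rw [ev_one]

/-- `M` is a (left) `R`-module of type `FP_n`. -/
def FP (R : Type) [Ring R] : ℕ → (M : Type) → [AddCommGroup M] → [Module R M] → Prop
  | 0, M, _, _ => Module.Finite R M
  | n + 1, M, _, _ => ∃ (P : Type) (_ : AddCommGroup P) (_ : Module R P) (f : P →ₗ[R] M),
      Module.Finite R P ∧ Module.Projective R P ∧ Function.Surjective f ∧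
        FP R n (LinearMap.ker f)

/-- The integers, as a trivial module. -/
def Triv (_Γ : Type) : Type := ℤ

instance (Γ : Type) : AddCommGroup (Triv Γ) := inferInstanceAs (AddCommGroup ℤ)

/-- The augmentation of the monoid ring. -/
noncomputable def aug (Γ : Type) [Monoid Γ] : MonoidAlgebra ℤ Γ →+* ℤ :=
  (MonoidAlgebra.lift ℤ ℤ Γ 1 : MonoidAlgebra ℤ Γ →ₐ[ℤ] ℤ)

noncomputable instance (Γ : Type) [Monoid Γ] : Module (MonoidAlgebra ℤ Γ) (Triv Γ) :=
  Module.compHom ℤ (aug Γ)

/-- The cone over the complement of `Σ^m(G, ℤ)` in the character sphere. -/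
def SigmaC (G : Type) [Group G] (m : ℕ) : Set (Chr G) :=
  {χ | χ ≠ 0 ∧ ¬ FP (MonoidAlgebra ℤ (mon χ)) m (Triv (mon χ))}

/-- The nonzero vectors which lie in the convex hull of an `m`-element subset of `T`. -/
def ConvLe {E : Type} [AddCommGroup E] [Module ℝ E] (m : ℕ) (T : Set E) : Set E :=
  {v | v ≠ 0 ∧ ∃ s : Finset E, s.card = m ∧ (s : Set E) ⊆ T ∧ v ∈ convexHull ℝ (s : Set E)}

end Pool.Agent.SM
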