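import Pool.Agent.Work.MP_e9e200_al.SM.Stmts

/-!
# Convex hulls
-/

set_option autoImplicit false

namespace Pool.Agent.SM

namespace CONVx

theorem fp_le (h : S_FPM) (R : Type) [Ring R] (M : Type) [AddCommGroup M] [Module R M] {a b : ℕ}
    (hab : a ≤ b) (hb : FP R b M) : FP R a M := by
  induction b, hab using Nat.le_induction with
  | base => exact hb
  | succ b _ ih => exact ih (h R b M hb)

theorem fp_congr {G : Type} [Group G] {X Y : Submonoid G} (hXY : X = Y) (n : ℕ)
    (h : FP (MonoidAlgebra ℤ X) n (Triv X)) : FP (MonoidAlgebra ℤ Y) n (Triv Y) := by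
  subst hXY
  exact h

theorem mon_smul {G : Type} [Group G] (χ : Chr G) {c : ℝ} (hc : 0 < c) :
    mon (c • χ) = mon χ := by
  ext g
  show 0 ≤ c * ev χ g ↔ 0 ≤ ev χ g
  exact mul_nonneg_iff_of_pos_left hc

theorem smul_mem {G : Type} [Group G] {m : ℕ} {χ : Chr G} (h : χ ∈ SigmaC G m) {c : ℝ}
    (hc : 0 < c) : c • χ ∈ SigmaC G m := by
  refine ⟨smul_ne_zero hc.ne' h.1, fun h' => h.2 ?_⟩
  exact fp_congr (mon_smul χ hc) m h'

end CONVx

open CONVx in
theorem prf_CONV (h : S_FPM) : S_CONV := by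
  classical
  intro G _ hG m hm v hv
  obtain ⟨hv0, s, hs, hsT, hvs⟩ := hv
  obtain ⟨w, hw0, hw1, hwv⟩ := Finset.mem_convexHull'.1 hvs
  obtain ⟨s', hs'⟩ : ∃ s' : Finset (Chr G), s' = s.filter (fun x => 0 < w x) := ⟨_, rfl⟩
  have hsum : ∑ x ∈ s', w x • x = v := by
    rw [hs', ← hwv]
    refine Finset.sum_filter_of_ne ?_
    intro x hx hne
    rcases (hw0 x hx).lt_or_eq with h1 | h1
    · exact h1
    · exact absurd (by rw [← h1, zero_smul]) hne
  have hcard : s'.card ≤ m := by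
    rw [hs', ← hs]
    exact Finset.card_filter_le _ _
  have hpos : 1 ≤ s'.card := by
    rw [Nat.one_le_iff_ne_zero, Ne, Finset.card_eq_zero]
    intro h0
    rw [h0, Finset.sum_empty] at hsum
    exact hv0 hsum.symm
  have hmem : ∀ x ∈ s', w x • x ∈ SigmaC G 1 := by
    intro x hx
    rw [hs', Finset.mem_filter] at hx
    exact smul_mem (hsT hx.1) hx.2
  have hsum' : ∑ i : Fin s'.card, w (s'.equivFin.symm i) • ((s'.equivFin.symm i : s') : Chr G)
      = v := by
    rw [← hsum, ← Finset.sum_coe_sort s' (fun x => w x • x)]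
    exact Equiv.sum_comp s'.equivFin.symm (fun x : s' => w x • (x : Chr G))
  have h1 := hG s'.card (fun i => w (s'.equivFin.symm i) • ((s'.equivFin.symm i : s') : Chr G))
    hpos (fun i => hmem _ (s'.equivFin.symm i).2) (by rw [hsum']; exact hv0)
  rw [hsum'] at h1
  exact ⟨hv0, fun h2 => h1.2 (fp_le h _ _ hcard h2)⟩

end Pool.Agent.SM
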