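import Pool.Agent.Work.MP_e9e200_al.SM.Stmts

/-!
# Item FUN: functionals and a triangular matrix
-/

set_option autoImplicit false

namespace Pool.Agent.SM

namespace FUNx

variable {G K V : Type} [Group G] [Field K] [AddCommGroup V] [Module K V]

/-- The subspace spanned by the `ρ g (τ e)`, `e ∈ E`, `t ≤ χ g`. -/
def Vs (ρ : G →* (V →ₗ[K] V)) (τ : G → V) (E : Finset G) (χ : Chr G) (t : ℝ) : Submodule K V :=
  Submodule.span K {v | ∃ g : G, ∃ e ∈ E, t ≤ ev χ g ∧ v = ρ g (τ e)}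

theorem Vs_anti (ρ : G →* (V →ₗ[K] V)) (τ : G → V) (E : Finset G) (χ : Chr G) {s t : ℝ}
    (h : s ≤ t) : Vs ρ τ E χ t ≤ Vs ρ τ E χ s := by
  apply Submodule.span_mono
  rintro v ⟨g, e, he, hg, rfl⟩
  exact ⟨g, e, he, h.trans hg, rfl⟩

theorem Vs_map (ρ : G →* (V →ₗ[K] V)) (τ : G → V) (E : Finset G) (χ : Chr G) (g : G) (t : ℝ)
    {v : V} (hv : v ∈ Vs ρ τ E χ t) : ρ g v ∈ Vs ρ τ E χ (t + ev χ g) := by
  have h : Submodule.map (ρ g) (Vs ρ τ E χ t) ≤ Vs ρ τ E χ (t + ev χ g) := by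
    unfold Vs
    rw [Submodule.map_span, Submodule.span_le]
    rintro _ ⟨v, ⟨h, e, he, hg, rfl⟩, rfl⟩
    refine Submodule.subset_span ⟨g * h, e, he, ?_, ?_⟩
    · rw [ev_mul]
      linarith
    · rw [map_mul]
      rfl
  exact h (Submodule.mem_map_of_mem hv)

theorem inv_act (ρ : G →* (V →ₗ[K] V)) (g : G) (v : V) : ρ g (ρ g⁻¹ v) = v := by
  have : (ρ g * ρ g⁻¹) v = v := by rw [← map_mul, mul_inv_cancel, map_one]; rfl
  exact this

theorem inv_act' (ρ : G →* (V →ₗ[K] V)) (g : G) (v : V) : ρ g⁻¹ (ρ g v) = v := by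
  have : (ρ g⁻¹ * ρ g) v = v := by rw [← map_mul, inv_mul_cancel, map_one]; rfl
  exact this

theorem tau_one {ρ : G →* (V →ₗ[K] V)} {τ : G → V} (h : LinA ρ τ) : τ 1 = 0 := by
  have := h.add 1 (one_mem _) 1 (one_mem _)
  rw [mul_one] at this
  simpa using this

theorem tau_inv {ρ : G →* (V →ₗ[K] V)} {τ : G → V} (h : LinA ρ τ) {a : G}
    (ha : a ∈ commutator G) : τ a⁻¹ = - τ a := by
  have := h.add a ha a⁻¹ (inv_mem ha)
  rw [mul_inv_cancel, tau_one h] at this
  exact (neg_eq_of_add_eq_zero_right this.symm).symm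

/-- every vector is in some `Vs t`. -/
theorem Vs_ex {ρ : G →* (V →ₗ[K] V)} {τ : G → V} (h : LinA ρ τ) {E : Finset G}
    (hE : ∀ e ∈ E, e ∈ commutator G)
    (hE2 : commutator G ≤ Subgroup.closure {x | ∃ g : G, ∃ e ∈ E, x = g * e * g⁻¹}) (χ : Chr G)
    (v : V) : ∃ t, v ∈ Vs ρ τ E χ t := by
  have hsup : ∀ {x y : V}, (∃ t, x ∈ Vs ρ τ E χ t) → (∃ t, y ∈ Vs ρ τ E χ t) →
      ∃ t, x + y ∈ Vs ρ τ E χ t := by
    rintro x y ⟨s, hs⟩ ⟨t, ht⟩
    exact ⟨min s t, add_mem (Vs_anti ρ τ E χ (min_le_left _ _) hs)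
      (Vs_anti ρ τ E χ (min_le_right _ _) ht)⟩
  have key : ∀ a ∈ Subgroup.closure {x | ∃ g : G, ∃ e ∈ E, x = g * e * g⁻¹},
      a ∈ commutator G ∧ ∃ t, τ a ∈ Vs ρ τ E χ t := by
    intro a ha
    induction ha using Subgroup.closure_induction with
    | mem x hx =>
      obtain ⟨g, e, he, rfl⟩ := hx
      refine ⟨Subgroup.Normal.conj_mem inferInstance e (hE e he) g, ev χ g, ?_⟩
      rw [h.eqv g e (hE e he)]
      exact Submodule.subset_span ⟨g, e, he, le_refl _, rfl⟩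
    | one =>
      refine ⟨one_mem _, 0, ?_⟩
      rw [tau_one h]
      exact zero_mem _
    | mul x y _ _ hx hy =>
      refine ⟨mul_mem hx.1 hy.1, ?_⟩
      rw [h.add x hx.1 y hy.1]
      exact hsup hx.2 hy.2
    | inv x _ hx =>
      refine ⟨inv_mem hx.1, ?_⟩
      obtain ⟨t, ht⟩ := hx.2
      refine ⟨t, ?_⟩
      rw [tau_inv h hx.1]
      exact neg_mem ht
  have hv : v ∈ Submodule.span K (τ '' (commutator G : Set G)) := by
    rw [h.spn]
    exact Submodule.mem_top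
  induction hv using Submodule.span_induction with
  | mem x hx =>
    obtain ⟨a, ha, rfl⟩ := hx
    exact (key a (hE2 ha)).2
  | zero => exact ⟨0, zero_mem _⟩
  | add x y _ _ hx hy => exact hsup hx hy
  | smul c x _ hx =>
    obtain ⟨t, ht⟩ := hx
    exact ⟨t, Submodule.smul_mem _ _ ht⟩

/-- (1) -/
theorem Vs_zero_ne {ρ : G →* (V →ₗ[K] V)} {τ : G → V} {E : Finset G} {χ : Chr G}
    (hn : NFG ρ χ) : Vs ρ τ E χ 0 ≠ ⊤ := by
  classical
  intro h
  apply hn (E.image τ)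
  rw [← h]
  unfold Vs
  congr 1
  ext v
  constructor
  · rintro ⟨g, b, hb, hg, rfl⟩
    obtain ⟨e, he, rfl⟩ := Finset.mem_image.1 hb
    exact ⟨g, e, he, hg, rfl⟩
  · rintro ⟨g, e, he, hg, rfl⟩
    exact ⟨g, τ e, Finset.mem_image_of_mem _ he, hg, rfl⟩

theorem ev_pow (χ : Chr G) (g : G) (n : ℕ) : ev χ (g ^ n) = n * ev χ g := by
  induction n with
  | zero => simp
  | succ n ih => rw [pow_succ, ev_mul, ih]; push_cast; ring

theorem Vs_ne {ρ : G →* (V →ₗ[K] V)} {τ : G → V} {E : Finset G} {χ : Chr G}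
    (hn : NFG ρ χ) (t : ℝ) : Vs ρ τ E χ t ≠ ⊤ := by
  intro h
  apply Vs_zero_ne (τ := τ) (E := E) hn
  rw [eq_top_iff]
  intro v _
  by_cases hg : ∃ g : G, - t ≤ ev χ g
  · obtain ⟨g, hg⟩ := hg
    have h1 : ρ g⁻¹ v ∈ Vs ρ τ E χ t := by rw [h]; exact Submodule.mem_top
    have h2 := Vs_map ρ τ E χ g t h1
    rw [inv_act] at h2
    exact Vs_anti ρ τ E χ (by linarith) h2
  · push Not at hg
    have hle : ∀ g : G, ev χ g ≤ 0 := by
      intro g
      by_contra hc
      push Not at hc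
      obtain ⟨n, hn⟩ := exists_nat_ge (- t / ev χ g)
      have h1 := hg (g ^ n)
      rw [ev_pow] at h1
      rw [div_le_iff₀ hc] at hn
      linarith
    have h0 : ∀ g : G, ev χ g = 0 := by
      intro g
      have h1 := hle g
      have h2 := hle g⁻¹
      rw [ev_inv] at h2
      linarith
    have hv : v ∈ Vs ρ τ E χ t := by rw [h]; exact Submodule.mem_top
    have hsub : Vs ρ τ E χ t ≤ Vs ρ τ E χ 0 := by
      apply Submodule.span_mono
      rintro v ⟨g, e, he, _, rfl⟩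
      exact ⟨g, e, he, (h0 g).ge, rfl⟩
    exact hsub hv

/-- A character with `NFG` is not zero. -/
theorem chr_ne {ρ : G →* (V →ₗ[K] V)} {τ : G → V} (h : LinA ρ τ) {E : Finset G}
    (hE : ∀ e ∈ E, e ∈ commutator G)
    (hE2 : commutator G ≤ Subgroup.closure {x | ∃ g : G, ∃ e ∈ E, x = g * e * g⁻¹}) {χ : Chr G}
    (hn : NFG ρ χ) : ∃ g : G, ev χ g ≠ 0 := by
  by_contra hc
  push Not at hc
  apply Vs_zero_ne (τ := τ) (E := E) hn
  rw [eq_top_iff]
  intro v _
  obtain ⟨t, ht⟩ := Vs_ex h hE hE2 χ v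
  have hsub : Vs ρ τ E χ t ≤ Vs ρ τ E χ 0 := by
    apply Submodule.span_mono
    rintro v ⟨g, e, he, _, rfl⟩
    exact ⟨g, e, he, (hc g).ge, rfl⟩
  exact hsub ht

/-- (2) finitely many nonzero characters are nonzero at a common element -/
theorem common (S : Finset (Chr G)) (hS : ∀ χ ∈ S, ∃ g : G, ev χ g ≠ 0) :
    ∃ g : G, ∀ χ ∈ S, ev χ g ≠ 0 := by
  classical
  induction S using Finset.induction_on with
  | empty => exact ⟨1, fun _ h => absurd h (Finset.notMem_empty _)⟩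
  | insert χ S _ ih =>
    obtain ⟨g, hg⟩ := ih fun ψ hψ => hS ψ (Finset.mem_insert_of_mem hψ)
    by_cases h0 : ev χ g = 0
    · obtain ⟨h, hh⟩ := hS χ (Finset.mem_insert_self _ _)
      -- choose n large
      have hfin : (⋃ ψ ∈ S, {n : ℕ | (n : ℝ) * ev ψ g + ev ψ h = 0}).Finite := by
        refine Set.Finite.biUnion S.finite_toSet fun ψ hψ => ?_
        apply Set.Subsingleton.finite
        intro a ha b hb
        simp only [Set.mem_ofPred_eq] at ha hb
        have h1 : ((a : ℝ) - b) * ev ψ g = 0 := by linarith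
        rcases mul_eq_zero.1 h1 with h2 | h2
        · exact_mod_cast sub_eq_zero.1 h2
        · exact absurd h2 (hg ψ hψ)
      obtain ⟨n, hn⟩ := hfin.infinite_compl.nonempty
      simp only [Set.mem_compl_iff, Set.mem_iUnion, Set.mem_ofPred_eq, not_exists] at hn
      refine ⟨g ^ n * h, fun ψ hψ => ?_⟩
      rw [ev_mul, ev_pow]
      rcases Finset.mem_insert.1 hψ with rfl | hψ
      · rw [h0, mul_zero, zero_add]
        exact hh
      · exact hn ψ hψ
    · refine ⟨g, fun ψ hψ => ?_⟩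
      rcases Finset.mem_insert.1 hψ with rfl | hψ
      · exact h0
      · exact hg ψ hψ

/-- (3) -/
theorem desc {ρ : G →* (V →ₗ[K] V)} {τ : G → V} {E : Finset G} {χ : Chr G} {g₀ : G}
    (h0 : ev χ g₀ ≠ 0) {s t : ℝ} {x : V} (hx : x - ρ g₀ x ∈ Vs ρ τ E χ s)
    (ht : x ∈ Vs ρ τ E χ t) : x ∈ Vs ρ τ E χ s := by
  have gen : ∀ c : ℝ, 0 < c → (∀ u, x ∈ Vs ρ τ E χ u → x ∈ Vs ρ τ E χ (min s (u + c))) →
      x ∈ Vs ρ τ E χ s := by
    intro c hc step
    have hn : ∀ n : ℕ, x ∈ Vs ρ τ E χ (min s (t + n * c)) := by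
      intro n
      induction n with
      | zero =>
        exact Vs_anti ρ τ E χ (by simp) ht
      | succ n ih =>
        refine Vs_anti ρ τ E χ ?_ (step _ ih)
        push_cast
        refine le_min (min_le_left _ _) ?_
        rcases le_total s (t + n * c) with h | h
        · rw [min_eq_left h]
          exact (min_le_left _ _).trans (by linarith)
        · rw [min_eq_right h]
          exact (min_le_right _ _).trans (by linarith)
    obtain ⟨n, hn'⟩ := exists_nat_ge ((s - t) / c)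
    rw [div_le_iff₀ hc] at hn'
    refine Vs_anti ρ τ E χ ?_ (hn n)
    exact le_min (le_refl _) (by linarith)
  rcases lt_or_gt_of_ne h0 with hneg | hpos
  · refine gen (- ev χ g₀) (by linarith) fun u hu => ?_
    have e : x = ρ g₀⁻¹ x - ρ g₀⁻¹ (x - ρ g₀ x) := by
      rw [map_sub, inv_act']
      abel
    rw [e]
    refine sub_mem ?_ ?_
    · have := Vs_map ρ τ E χ g₀⁻¹ u hu
      rw [ev_inv] at this
      exact Vs_anti ρ τ E χ (min_le_right _ _) this
    · have := Vs_map ρ τ E χ g₀⁻¹ s hx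
      rw [ev_inv] at this
      exact Vs_anti ρ τ E χ ((min_le_left _ _).trans (by linarith)) this
  · refine gen (ev χ g₀) hpos fun u hu => ?_
    have e : x = (x - ρ g₀ x) + ρ g₀ x := by abel
    rw [e]
    exact add_mem (Vs_anti ρ τ E χ (min_le_left _ _) hx)
      (Vs_anti ρ τ E χ (min_le_right _ _) (Vs_map ρ τ E χ g₀ u hu))

/-- The crossed homomorphism. -/
def del (τ : G → V) (g₀ g : G) : V := τ (g * g₀ * g⁻¹ * g₀⁻¹)

theorem comm_mem (g h : G) : g * h * g⁻¹ * h⁻¹ ∈ commutator G := by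
  rw [commutator_def]
  have := Subgroup.commutator_mem_commutator (H₁ := (⊤ : Subgroup G)) (H₂ := (⊤ : Subgroup G))
    (Subgroup.mem_top g) (Subgroup.mem_top h)
  exact this

theorem del_mul {ρ : G →* (V →ₗ[K] V)} {τ : G → V} (hl : LinA ρ τ) (g₀ g h : G) :
    del τ g₀ (g * h) = del τ g₀ g + ρ g (del τ g₀ h) := by
  unfold del
  have e : g * h * g₀ * (g * h)⁻¹ * g₀⁻¹ =
      (g * (h * g₀ * h⁻¹ * g₀⁻¹) * g⁻¹) * (g * g₀ * g⁻¹ * g₀⁻¹) := by group
  rw [e, hl.add _ (Subgroup.Normal.conj_mem inferInstance _ (comm_mem h g₀) g) _ (comm_mem g g₀),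
    hl.eqv g _ (comm_mem h g₀), add_comm]

theorem del_comm {ρ : G →* (V →ₗ[K] V)} {τ : G → V} (hl : LinA ρ τ) (g₀ : G) {a : G}
    (ha : a ∈ commutator G) : del τ g₀ a = τ a - ρ g₀ (τ a) := by
  unfold del
  have e : a * g₀ * a⁻¹ * g₀⁻¹ = a * (g₀ * a⁻¹ * g₀⁻¹) := by group
  rw [e, hl.add _ ha _ (Subgroup.Normal.conj_mem inferInstance _ (inv_mem ha) g₀),
    hl.eqv g₀ _ (inv_mem ha), tau_inv hl ha, map_neg, sub_eq_add_neg]

theorem level {ρ : G →* (V →ₗ[K] V)} {τ : G → V} (hl : LinA ρ τ) {E : Finset G}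
    (hE : ∀ e ∈ E, e ∈ commutator G)
    (hE2 : commutator G ≤ Subgroup.closure {x | ∃ g : G, ∃ e ∈ E, x = g * e * g⁻¹}) (χ : Chr G)
    (s : ℝ) (W : Set V) (hW : W.Finite) : ∃ s' ≤ s, ∀ w ∈ W, w ∈ Vs ρ τ E χ s' := by
  induction W, hW using Set.Finite.induction_on with
  | empty => exact ⟨s, le_refl _, fun _ h => absurd h (Set.notMem_empty _)⟩
  | @insert w W _ _ ih =>
    obtain ⟨s', hs', hw⟩ := ih
    obtain ⟨t, ht⟩ := Vs_ex hl hE hE2 χ w
    refine ⟨min s' t, (min_le_left _ _).trans hs', fun x hx => ?_⟩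
    rcases Set.mem_insert_iff.1 hx with rfl | hx
    · exact Vs_anti ρ τ E χ (min_le_right _ _) ht
    · exact Vs_anti ρ τ E χ (min_le_left _ _) (hw x hx)

/-- (4) -/
theorem exa {ρ : G →* (V →ₗ[K] V)} {τ : G → V} (hl : LinA ρ τ) {E : Finset G}
    (hE : ∀ e ∈ E, e ∈ commutator G)
    (hE2 : commutator G ≤ Subgroup.closure {x | ∃ g : G, ∃ e ∈ E, x = g * e * g⁻¹}) {χ : Chr G}
    (hn : NFG ρ χ) {g₀ : G} (h0 : ev χ g₀ ≠ 0) (s : ℝ) (W : Set V) (hW : W.Finite) :
    ∃ a ∈ commutator G, del τ g₀ a ∉ Vs ρ τ E χ s ⊔ Submodule.span K W := by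
  by_contra hc
  push Not at hc
  -- a common level
  obtain ⟨s', hs', hWs⟩ := level hl hE hE2 χ s W hW
  have hle : Vs ρ τ E χ s ⊔ Submodule.span K W ≤ Vs ρ τ E χ s' :=
    sup_le (Vs_anti ρ τ E χ hs') (Submodule.span_le.2 hWs)
  have hx : ∀ x : V, x - ρ g₀ x ∈ Vs ρ τ E χ s' := by
    intro x
    have hv : x ∈ Submodule.span K (τ '' (commutator G : Set G)) := by
      rw [hl.spn]
      exact Submodule.mem_top
    induction hv using Submodule.span_induction with
    | mem x hx =>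
      obtain ⟨a, ha, rfl⟩ := hx
      rw [← del_comm hl g₀ ha]
      exact hle (hc a ha)
    | zero => simp
    | add x y _ _ hx hy =>
      have e : x + y - ρ g₀ (x + y) = (x - ρ g₀ x) + (y - ρ g₀ y) := by
        rw [map_add]
        abel
      rw [e]
      exact add_mem hx hy
    | smul c x _ hx =>
      have e : c • x - ρ g₀ (c • x) = c • (x - ρ g₀ x) := by
        rw [map_smul, smul_sub]
      rw [e]
      exact Submodule.smul_mem _ _ hx
  apply Vs_ne (τ := τ) (E := E) hn s'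
  rw [eq_top_iff]
  intro x _
  obtain ⟨t, ht⟩ := Vs_ex hl hE hE2 χ x
  exact desc h0 (hx x) ht

end FUNx

open FUNx in
theorem prf_FUN (h : S_NORM) : S_FUN := by
  intro G K V _ _ _ _ ρ τ m χ hfg hm hl hn
  obtain ⟨E, hE, hE2⟩ := h G hfg
  classical
  obtain ⟨g₀, hg₀⟩ := common (Finset.univ.image χ) (by
    intro ψ hψ
    obtain ⟨i, _, rfl⟩ := Finset.mem_image.1 hψ
    exact chr_ne hl hE hE2 (hn i))
  have hg₀' : ∀ i, ev (χ i) g₀ ≠ 0 := fun i => hg₀ _ (Finset.mem_image_of_mem _ (Finset.mem_univ i))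
  refine ⟨del τ g₀, fun i t => Vs ρ τ E (χ i) t, del_mul hl g₀, fun i v => Vs_ex hl hE hE2 (χ i) v,
    fun i s t hst => Vs_anti ρ τ E (χ i) hst, fun i g t v hv => Vs_map ρ τ E (χ i) g t hv, ?_⟩
  intro s
  -- the elements `a`
  have hex : ∀ k : ℕ, ∃ a : Fin m → G, (∀ i, a i ∈ commutator G) ∧ ∀ i : Fin m, (i : ℕ) < k →
      del τ g₀ (a i) ∉ Vs ρ τ E (χ i) (s i) ⊔
        Submodule.span K ((fun j => del τ g₀ (a j)) '' {j | j < i}) := by
    intro k
    induction k with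
    | zero => exact ⟨fun _ => 1, fun _ => one_mem _, fun i hi => absurd hi (Nat.not_lt_zero _)⟩
    | succ k ih =>
      obtain ⟨a, ha, hak⟩ := ih
      by_cases hk : k < m
      · obtain ⟨b, hb, hb2⟩ := exa hl hE hE2 (hn ⟨k, hk⟩) (hg₀' ⟨k, hk⟩) (s ⟨k, hk⟩)
          ((fun j => del τ g₀ (a j)) '' {j | j < (⟨k, hk⟩ : Fin m)}) (Set.toFinite _)
        have himg : ∀ i : Fin m, (i : ℕ) ≤ k →
            (fun j => del τ g₀ (Function.update a ⟨k, hk⟩ b j)) '' {j | j < i} =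
              (fun j => del τ g₀ (a j)) '' {j | j < i} := by
          intro i hi
          apply Set.image_congr
          intro j hj
          have hj' : j < i := hj
          have : j ≠ ⟨k, hk⟩ := by
            rintro rfl
            have : k < (i : ℕ) := hj'
            omega
          simp only [Function.update_of_ne this]
        refine ⟨Function.update a ⟨k, hk⟩ b, ?_, ?_⟩
        · intro i
          by_cases hi : i = ⟨k, hk⟩
          · rw [hi, Function.update_self]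
            exact hb
          · rw [Function.update_of_ne hi]
            exact ha i
        · intro i hi
          rw [himg i (by omega)]
          by_cases hi' : i = ⟨k, hk⟩
          · rw [hi', Function.update_self]
            exact hb2
          · rw [Function.update_of_ne hi']
            refine hak i ?_
            have : (i : ℕ) ≠ k := fun hc => hi' (Fin.ext hc)
            omega
      · exact ⟨a, ha, fun i _ => hak i (by omega)⟩
  obtain ⟨a, ha, hak⟩ := hex m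
  have hf : ∀ i : Fin m, ∃ f : V →ₗ[K] K, (∀ v ∈ Vs ρ τ E (χ i) (s i), f v = 0) ∧
      f (del τ g₀ (a i)) = 1 ∧ ∀ j, j < i → f (del τ g₀ (a j)) = 0 := by
    intro i
    obtain ⟨f, hf1, hf2⟩ := Submodule.exists_le_ker_of_notMem (hak i i.2)
    have hker : ∀ v ∈ Vs ρ τ E (χ i) (s i) ⊔
        Submodule.span K ((fun j => del τ g₀ (a j)) '' {j | j < i}), f v = 0 :=
      fun v hv => LinearMap.mem_ker.1 (hf2 hv)
    refine ⟨(f (del τ g₀ (a i)))⁻¹ • f, fun v hv => ?_, ?_, fun j hj => ?_⟩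
    · rw [LinearMap.smul_apply, hker v (Submodule.mem_sup_left hv), smul_zero]
    · rw [LinearMap.smul_apply, smul_eq_mul, inv_mul_cancel₀ hf1]
    · rw [LinearMap.smul_apply, hker _ (Submodule.mem_sup_right (Submodule.subset_span
        ⟨j, hj, rfl⟩)), smul_zero]
  choose f hf1 hf2 hf3 using hf
  exact ⟨a, f, ha, hf1, hf2, hf3⟩

end Pool.Agent.SM
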