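import Pool.Agent.Work.MP_e9e200_al.SM.Stmts

/-!
# The homological lemma
-/

set_option autoImplicit false

namespace Pool.Agent.SM

namespace HLx

/-- `PCh` is invariant under isomorphisms. -/
theorem pch_equiv {R : Type} [Ring R] {C B : Type} [AddCommGroup C] [Module R C] [AddCommGroup B]
    [Module R B] (ι : B →ₗ[R] C) (n : ℕ) : ∀ (M N : Type) [AddCommGroup M] [Module R M]
    [AddCommGroup N] [Module R N], (M ≃ₗ[R] N) → PCh R C B ι n M → PCh R C B ι n N := by
  induction n with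
  | zero =>
    intro M N _ _ _ _ e hM
    obtain ⟨f, hf, hk⟩ := hM
    refine ⟨e.toLinearMap ∘ₗ f, ?_, ?_⟩
    · intro y
      obtain ⟨x, hx⟩ := hf (e.symm y)
      exact ⟨x, by simp [hx]⟩
    · rw [← hk]
      exact LinearEquiv.ker_comp e f
  | succ n ih =>
    intro M N _ _ _ _ e hM
    obtain ⟨C₀, i1, i2, f, hp, hf, hk⟩ := hM
    refine ⟨C₀, i1, i2, e.toLinearMap ∘ₗ f, hp, ?_, ?_⟩
    · intro y
      obtain ⟨x, hx⟩ := hf (e.symm y)
      exact ⟨x, by simp [hx]⟩
    · exact ih _ _ (LinearEquiv.ofEq _ _ (LinearEquiv.ker_comp e f).symm) hk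

/-- The case `n = 0`. -/
theorem base {R : Type} [Ring R] {C B : Type} [AddCommGroup C] [Module R C] [AddCommGroup B]
    [Module R B] (ι : B →ₗ[R] C) (hC : Module.Projective R C) (hι : Function.Injective ι)
    {M P : Type} [AddCommGroup M] [Module R M] [AddCommGroup P] [Module R P]
    (f : C →ₗ[R] M) (hf : Function.Surjective f) (hk : LinearMap.ker f = LinearMap.range ι)
    (g : P →ₗ[R] M) (hP : Module.Projective R P) (hg : Function.Surjective g)
    (hfin : Module.Finite R (LinearMap.ker g)) :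
    ∃ (F : Finset B) (θ : C →ₗ[R] B), ∀ b : B, b - θ (ι b) ∈ Submodule.span R (F : Set B) := by
  obtain ⟨s, hs⟩ := Module.projective_lifting_property f g hf
  obtain ⟨α, hα⟩ := Module.projective_lifting_property g f hg
  have hs' : ∀ p, f (s p) = g p := fun p => by rw [← hs]; rfl
  have hα' : ∀ c, g (α c) = f c := fun c => by rw [← hα]; rfl
  let e := LinearEquiv.ofInjective ι hι
  have he : ∀ x : LinearMap.range ι, ι (e.symm x) = x := by
    intro x
    have := LinearEquiv.apply_symm_apply e x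
    exact congrArg Subtype.val this
  let D : C →ₗ[R] C := LinearMap.id - s ∘ₗ α
  have hD : ∀ c, D c ∈ LinearMap.range ι := by
    intro c
    rw [← hk, LinearMap.mem_ker]
    show f (c - s (α c)) = 0
    rw [map_sub, hs', hα', sub_self]
  let θ : C →ₗ[R] B := e.symm.toLinearMap ∘ₗ D.codRestrict (LinearMap.range ι) hD
  have hθ : ∀ c, ι (θ c) = c - s (α c) := by
    intro c
    have := he (D.codRestrict (LinearMap.range ι) hD c)
    exact this
  have hK : ∀ x : LinearMap.ker g, (s ∘ₗ (LinearMap.ker g).subtype) x ∈ LinearMap.range ι := by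
    intro x
    rw [← hk, LinearMap.mem_ker]
    show f (s x) = 0
    rw [hs']
    exact x.2
  let κ : LinearMap.ker g →ₗ[R] B :=
    e.symm.toLinearMap ∘ₗ (s ∘ₗ (LinearMap.ker g).subtype).codRestrict (LinearMap.range ι) hK
  have hκ : ∀ x : LinearMap.ker g, ι (κ x) = s x := by
    intro x
    have := he ((s ∘ₗ (LinearMap.ker g).subtype).codRestrict (LinearMap.range ι) hK x)
    exact this
  obtain ⟨F, hF⟩ := (hfin.fg_top).map κ
  refine ⟨F, θ, fun b => ?_⟩
  have hb : g (α (ι b)) = 0 := by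
    rw [hα', ← LinearMap.mem_ker, hk]
    exact ⟨b, rfl⟩
  have heq : b - θ (ι b) = κ ⟨α (ι b), hb⟩ := by
    apply hι
    rw [map_sub, hθ, hκ]
    simp
  rw [heq, hF]
  exact ⟨_, trivial, rfl⟩

section

variable {R : Type} [Ring R] {D C₀ M P : Type} [AddCommGroup D] [Module R D] [AddCommGroup C₀]
  [Module R C₀] [AddCommGroup M] [Module R M] [AddCommGroup P] [Module R P]
  (f : C₀ →ₗ[R] M) (g : P →ₗ[R] M) (s : P →ₗ[R] C₀) (h : D →ₗ[R] LinearMap.ker f)

/-- `(d, p) ↦ h d + s p` -/
def phi : D × P →ₗ[R] C₀ := ((LinearMap.ker f).subtype ∘ₗ h).coprod s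

theorem phi_apply (d : D) (p : P) : phi f s h (d, p) = (h d : C₀) + s p := rfl

variable {f g s h}

theorem phi_surj (hs : ∀ p, f (s p) = g p) (hg : Function.Surjective g)
    (hh : Function.Surjective h) : Function.Surjective (phi f s h) := by
  intro c
  obtain ⟨p, hp⟩ := hg (f c)
  have h1 : f (c - s p) = 0 := by rw [map_sub, hs, hp, sub_self]
  obtain ⟨d, hd⟩ := hh ⟨c - s p, h1⟩
  refine ⟨(d, p), ?_⟩
  rw [phi_apply, hd]
  simp

theorem mem_g (hs : ∀ p, f (s p) = g p) (x : LinearMap.ker (phi f s h)) :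
    (LinearMap.snd R D P ∘ₗ (LinearMap.ker (phi f s h)).subtype) x ∈ LinearMap.ker g := by
  obtain ⟨⟨d, p⟩, hx⟩ := x
  rw [LinearMap.mem_ker, phi_apply] at hx
  rw [LinearMap.mem_ker]
  show g p = 0
  rw [← hs]
  have h1 : s p = -(h d : C₀) := by rw [← sub_eq_zero, sub_neg_eq_add, add_comm]; exact hx
  rw [h1, map_neg, (h d).2, neg_zero]

variable (f g s h)

/-- `(d, p) ↦ p` -/
def psi (hs : ∀ p, f (s p) = g p) : LinearMap.ker (phi f s h) →ₗ[R] LinearMap.ker g :=
  (LinearMap.snd R D P ∘ₗ (LinearMap.ker (phi f s h)).subtype).codRestrict (LinearMap.ker g)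
    (mem_g hs)

variable {f g s h}

theorem psi_apply (hs : ∀ p, f (s p) = g p) (x : LinearMap.ker (phi f s h)) :
    (psi f g s h hs x : P) = x.1.2 := rfl

theorem psi_surj (hs : ∀ p, f (s p) = g p) (hh : Function.Surjective h) :
    Function.Surjective (psi f g s h hs) := by
  rintro ⟨p, hp⟩
  have h1 : f (-(s p)) = 0 := by
    rw [map_neg, hs, LinearMap.mem_ker.1 hp, neg_zero]
  obtain ⟨d, hd⟩ := hh ⟨-(s p), h1⟩
  refine ⟨⟨(d, p), ?_⟩, Subtype.ext rfl⟩
  rw [LinearMap.mem_ker, phi_apply, hd]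
  simp

theorem psi_ker (hs : ∀ p, f (s p) = g p) (x : LinearMap.ker (phi f s h)) :
    x ∈ LinearMap.ker (psi f g s h hs) ↔ h x.1.1 = 0 ∧ x.1.2 = 0 := by
  obtain ⟨⟨d, p⟩, hx⟩ := x
  rw [LinearMap.mem_ker, phi_apply] at hx
  rw [LinearMap.mem_ker, Subtype.ext_iff, psi_apply]
  constructor
  · intro h1
    have h2 : p = 0 := h1
    refine ⟨?_, h2⟩
    rw [h2, map_zero, add_zero] at hx
    exact Subtype.ext hx
  · exact fun h1 => h1.2

/-- A splitting. -/
theorem split (hC₀ : Module.Projective R C₀) (hφ : Function.Surjective (phi f s h)) :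
    ∃ π : D × P →ₗ[R] LinearMap.ker (phi f s h), ∀ x : LinearMap.ker (phi f s h), π x = x := by
  obtain ⟨σ, hσ⟩ := Module.projective_lifting_property (phi f s h) LinearMap.id hφ
  have hσ' : ∀ c, phi f s h (σ c) = c := fun c => by
    have := LinearMap.congr_fun hσ c
    exact this
  have hmem : ∀ x : D × P, (LinearMap.id - σ ∘ₗ phi f s h : D × P →ₗ[R] D × P) x ∈
      LinearMap.ker (phi f s h) := by
    intro x
    rw [LinearMap.mem_ker]
    show phi f s h (x - σ (phi f s h x)) = 0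
    rw [map_sub, hσ', sub_self]
  refine ⟨(LinearMap.id - σ ∘ₗ phi f s h : D × P →ₗ[R] D × P).codRestrict
    (LinearMap.ker (phi f s h)) hmem, ?_⟩
  intro x
  apply Subtype.ext
  show (x : D × P) - σ (phi f s h x) = x
  rw [LinearMap.mem_ker.1 x.2, map_zero, sub_zero]

theorem ker_proj (hD : Module.Projective R D) (hP : Module.Projective R P)
    (hC₀ : Module.Projective R C₀) (hφ : Function.Surjective (phi f s h)) :
    Module.Projective R (LinearMap.ker (phi f s h)) := by
  obtain ⟨π, hπ⟩ := split hC₀ hφ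
  exact Module.Projective.of_split (LinearMap.ker (phi f s h)).subtype π
    (LinearMap.ext fun x => hπ x)

theorem m1 (d : LinearMap.ker h) :
    (LinearMap.inl R D P ∘ₗ (LinearMap.ker h).subtype) d ∈ LinearMap.ker (phi f s h) := by
  rw [LinearMap.mem_ker]
  show phi f s h (d.1, 0) = 0
  rw [phi_apply, LinearMap.mem_ker.1 d.2]
  simp

theorem m2 (hs : ∀ p, f (s p) = g p) (d : LinearMap.ker h) :
    ((LinearMap.inl R D P ∘ₗ (LinearMap.ker h).subtype).codRestrict
      (LinearMap.ker (phi f s h)) m1) d ∈ LinearMap.ker (psi f g s h hs) := by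
  rw [psi_ker]
  exact ⟨LinearMap.mem_ker.1 d.2, rfl⟩

/-- The kernel of `psi` is isomorphic to the kernel of `h`. -/
noncomputable def kerEquiv (hs : ∀ p, f (s p) = g p) :
    LinearMap.ker h ≃ₗ[R] LinearMap.ker (psi f g s h hs) :=
  LinearEquiv.ofBijective
    (((LinearMap.inl R D P ∘ₗ (LinearMap.ker h).subtype).codRestrict
      (LinearMap.ker (phi f s h)) m1).codRestrict (LinearMap.ker (psi f g s h hs)) (m2 hs))
    ⟨fun a b hab => by
      apply Subtype.ext
      have h1 := congrArg (fun x : LinearMap.ker (psi f g s h hs) => x.1.1.1) hab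
      exact h1, fun y => by
      obtain ⟨h1, h2⟩ := (psi_ker hs y.1).1 y.2
      refine ⟨⟨y.1.1.1, h1⟩, ?_⟩
      apply Subtype.ext
      apply Subtype.ext
      exact Prod.ext rfl h2.symm⟩

end

end HLx

open HLx

theorem prf_HL (_h : S_FPE) : S_HL := by
  intro R _ n
  induction n with
  | zero =>
    intro C B _ _ _ _ ι hC hι M _ _ hM hF
    obtain ⟨f, hf, hk⟩ := hM
    obtain ⟨P, i1, i2, g, _, hP, hg, hfin⟩ := hF
    exact base ι hC hι f hf hk g hP hg hfin
  | succ n ih =>
    intro C B _ _ _ _ ι hC hι M _ _ hM hF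
    obtain ⟨C₀, i1, i2, f, hC₀, hf, hM'⟩ := hM
    obtain ⟨P, i3, i4, g, hPf, hP, hg, hF'⟩ := hF
    obtain ⟨s, hs0⟩ := Module.projective_lifting_property f g hf
    have hs : ∀ p, f (s p) = g p := fun p => by rw [← hs0]; rfl
    cases n with
    | zero =>
      obtain ⟨h, hh, hk⟩ := hM'
      have hφ := phi_surj hs hg hh
      have hC' := ker_proj hC hP hC₀ hφ
      obtain ⟨π, hπ⟩ := split hC₀ hφ
      have hιk : ∀ b, h (ι b) = 0 := fun b => by
        rw [← LinearMap.mem_ker, hk]
        exact ⟨b, rfl⟩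
      have hmem : ∀ b, (LinearMap.inl R C P ∘ₗ ι) b ∈ LinearMap.ker (phi f s h) := by
        intro b
        rw [LinearMap.mem_ker]
        show phi f s h (ι b, 0) = 0
        rw [phi_apply, hιk]
        simp
      let ι' : B →ₗ[R] LinearMap.ker (phi f s h) :=
        (LinearMap.inl R C P ∘ₗ ι).codRestrict (LinearMap.ker (phi f s h)) hmem
      have hι'a : ∀ b, (ι' b : C × P) = (ι b, 0) := fun b => rfl
      have hι' : Function.Injective ι' := by
        intro a b hab
        apply hι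
        have h1 := congrArg (fun x : LinearMap.ker (phi f s h) => x.1.1) hab
        exact h1
      have hpch : PCh R (LinearMap.ker (phi f s h)) B ι' 0 (LinearMap.ker g) := by
        refine ⟨psi f g s h hs, psi_surj hs hh, ?_⟩
        ext x
        rw [psi_ker]
        constructor
        · rintro ⟨h1, h2⟩
          rw [← LinearMap.mem_ker, hk] at h1
          obtain ⟨b, hb⟩ := h1
          refine ⟨b, ?_⟩
          apply Subtype.ext
          rw [hι'a, hb, ← h2]
        · rintro ⟨b, rfl⟩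
          exact ⟨hιk b, rfl⟩
      obtain ⟨F, θ', hθ'⟩ := ih _ _ ι' hC' hι' _ hpch hF'
      refine ⟨F, θ' ∘ₗ π ∘ₗ LinearMap.inl R C P, fun b => ?_⟩
      have h1 : (θ' ∘ₗ π ∘ₗ LinearMap.inl R C P) (ι b) = θ' (ι' b) := by
        show θ' (π (ι b, 0)) = θ' (ι' b)
        rw [← hι'a, hπ]
      rw [h1]
      exact hθ' b
    | succ n =>
      obtain ⟨C₁, i5, i6, h, hC₁, hh, hM''⟩ := hM'
      have hφ := phi_surj hs hg hh
      have hC' := ker_proj hC₁ hP hC₀ hφ
      refine ih C B ι hC hι (LinearMap.ker g) ?_ hF'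
      exact ⟨LinearMap.ker (phi f s h), inferInstance, inferInstance, psi f g s h hs, hC',
        psi_surj hs hh, pch_equiv ι n _ _ (kerEquiv hs) hM''⟩

end Pool.Agent.SM
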