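import Pool.Agent.Work.MP_e9e200_al.SM.Stmts

/-!
# The commutator subgroup is finitely generated as a normal subgroup
-/

set_option autoImplicit false

namespace Pool.Agent.SM

open scoped commutatorElement

namespace NORMx

theorem comm_le {G : Type} [Group G] (S : Set G) (hS : Subgroup.closure S = ⊤)
    (N : Subgroup G) [N.Normal] (h : ∀ x ∈ S, ∀ y ∈ S, ⁅x, y⁆ ∈ N) : commutator G ≤ N := by
  have hc : ∀ a b : G, ⁅a, b⁆ ∈ N →
      Commute (QuotientGroup.mk' N a) (QuotientGroup.mk' N b) := by
    intro a b hab
    rw [← commutatorElement_eq_one_iff_commute, ← map_commutatorElement]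
    exact (QuotientGroup.eq_one_iff _).2 hab
  have h1 : ∀ x ∈ S, ∀ b : G, Commute (QuotientGroup.mk' N x) (QuotientGroup.mk' N b) := by
    intro x hx b
    have hb : b ∈ Subgroup.closure S := by rw [hS]; exact Subgroup.mem_top b
    induction hb using Subgroup.closure_induction with
    | mem y hy => exact hc x y (h x hx y hy)
    | one => rw [map_one]; exact Commute.one_right _
    | mul a b _ _ ha hb => rw [map_mul]; exact ha.mul_right hb
    | inv a _ ha => rw [map_inv]; exact ha.inv_right
  have h2 : ∀ a b : G, Commute (QuotientGroup.mk' N a) (QuotientGroup.mk' N b) := by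
    intro a b
    have ha : a ∈ Subgroup.closure S := by rw [hS]; exact Subgroup.mem_top a
    induction ha using Subgroup.closure_induction with
    | mem y hy => exact h1 y hy b
    | one => rw [map_one]; exact Commute.one_left _
    | mul a c _ _ ha hc => rw [map_mul]; exact ha.mul_left hc
    | inv a _ ha => rw [map_inv]; exact ha.inv_left
  rw [commutator_def, Subgroup.commutator_le]
  intro a _ b _
  have h3 := h2 a b
  rw [← commutatorElement_eq_one_iff_commute, ← map_commutatorElement] at h3
  exact (QuotientGroup.eq_one_iff _).1 h3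

end NORMx

open NORMx

theorem prf_NORM : S_NORM := by
  classical
  intro G _ hG
  obtain ⟨_, S, -, hS⟩ := Group.fg_iff'.1 hG
  refine ⟨(S ×ˢ S).image fun p => ⁅p.1, p.2⁆, ?_, ?_⟩
  · intro e he
    obtain ⟨p, -, rfl⟩ := Finset.mem_image.1 he
    rw [commutator_def]
    exact Subgroup.commutator_mem_commutator (Subgroup.mem_top _) (Subgroup.mem_top _)
  · have h1 : commutator G ≤ Subgroup.normalClosure
        (((S ×ˢ S).image fun p => ⁅p.1, p.2⁆ : Finset G) : Set G) := by
      refine comm_le (S : Set G) hS _ fun x hx y hy => ?_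
      refine Subgroup.subset_normalClosure ?_
      rw [Finset.mem_coe, Finset.mem_image]
      exact ⟨(x, y), Finset.mem_product.2 ⟨hx, hy⟩, rfl⟩
    refine h1.trans ?_
    refine Subgroup.closure_mono ?_
    intro x hx
    obtain ⟨e, he, hc⟩ := Group.mem_conjugatesOfSet_iff.1 hx
    obtain ⟨c, hc⟩ := isConj_iff.1 hc
    exact ⟨c, e, he, hc.symm⟩

end Pool.Agent.SM
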