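import Pool.Agent.Work.MP_e9e200_al.SM.Stmts

/-!
# Item PK: commutator subgroup of exponent `p^k`
-/

set_option autoImplicit false

namespace Pool.Agent.SM

namespace PKx

section Quo

variable (p : ℕ) (A : Type) [AddCommGroup A]

/-- `p A`. -/
def pA : AddSubgroup A := (nsmulAddMonoidHom (α := A) p).range

/-- `A / p A`. -/
abbrev Qp : Type := A ⧸ pA p A

theorem nsmul_Qp (x : Qp p A) : p • x = 0 := by
  induction x using QuotientAddGroup.induction_on with
  | H x =>
    rw [← QuotientAddGroup.mk_nsmul, QuotientAddGroup.eq_zero_iff]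
    exact ⟨x, rfl⟩

instance : Module (ZMod p) (Qp p A) := AddCommGroup.zmodModule (nsmul_Qp p A)

variable {A}

/-- The induced map. -/
def indF (f : A →+ A) : Qp p A →ₗ[ZMod p] Qp p A :=
  (QuotientAddGroup.map (pA p A) (pA p A) f (by
    rintro _ ⟨x, rfl⟩
    exact ⟨f x, (map_nsmul f p x).symm⟩)).toZModLinearMap p

theorem indF_mk (f : A →+ A) (x : A) :
    indF p f (QuotientAddGroup.mk x) = QuotientAddGroup.mk (f x) := rfl

/-- The induced action. -/
def indA {G : Type} [Group G] (act : G →* AddMonoid.End A) : G →* (Qp p A →ₗ[ZMod p] Qp p A) where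
  toFun g := indF p (act g)
  map_one' := by
    ext x
    induction x using QuotientAddGroup.induction_on with
    | H x =>
      rw [indF_mk, map_one]
      rfl
  map_mul' g h := by
    ext x
    induction x using QuotientAddGroup.induction_on with
    | H x =>
      rw [indF_mk, map_mul]
      rfl

theorem indA_mk {G : Type} [Group G] (act : G →* AddMonoid.End A) (g : G) (x : A) :
    indA p act g (QuotientAddGroup.mk x) = QuotientAddGroup.mk (act g x) := rfl

theorem smul_eq_val [NeZero p] (c : ZMod p) (v : Qp p A) : c • v = c.val • v := by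
  rw [← Nat.cast_smul_eq_nsmul (ZMod p), ZMod.natCast_zmod_val]

end Quo

/-- The commutator subgroup as an additive group with an action of `G`. -/
theorem exA (G : Type) [Group G] (hm : Metab G) :
    ∃ (A : Type) (_ : AddCommGroup A) (act : G →* AddMonoid.End A) (e : G → A),
      (∀ a ∈ commutator G, ∀ b ∈ commutator G, e (a * b) = e a + e b) ∧
      (∀ a ∈ commutator G, ∀ b ∈ commutator G, e a = e b → a = b) ∧
      (∀ x : A, ∃ a ∈ commutator G, e a = x) ∧
      (∀ g : G, ∀ a ∈ commutator G, e (g * a * g⁻¹) = act g (e a)) := by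
  classical
  let _ : CommGroup (commutator G) :=
    { (inferInstance : Group (commutator G)) with
      mul_comm := fun a b => Subtype.ext (hm a a.2 b b.2) }
  obtain ⟨e, he⟩ : ∃ e : G → Additive (commutator G),
      ∀ (a : G) (h : a ∈ commutator G), e a = Additive.ofMul ⟨a, h⟩ :=
    ⟨fun a => if h : a ∈ commutator G then Additive.ofMul ⟨a, h⟩ else 0, fun a h => dif_pos h⟩
  refine ⟨Additive (commutator G), inferInstance,
    { toFun := fun g => MonoidHom.toAdditive (MulAut.conjNormal g : MulAut (commutator G)).toMonoidHom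
      map_one' := ?_
      map_mul' := ?_ }, e, ?_, ?_, ?_, ?_⟩
  · ext x
    rw [map_one]
    rfl
  · intro g h
    ext x
    rw [map_mul]
    rfl
  · intro a ha b hb
    rw [he a ha, he b hb, he _ (mul_mem ha hb)]
    rfl
  · intro a ha b hb h
    rw [he a ha, he b hb] at h
    exact congrArg Subtype.val (Additive.ofMul.injective h)
  · intro x
    exact ⟨(x.toMul : G), x.toMul.2, he _ x.toMul.2⟩
  · intro g a ha
    rw [he a ha, he _ (Subgroup.Normal.conj_mem inferInstance a ha g)]
    apply Additive.toMul.injective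
    apply Subtype.ext
    exact (MulAut.conjNormal_apply g (⟨a, ha⟩ : commutator G)).symm

end PKx

open PKx in
theorem prf_PK (h : S_SIG) : S_PK := by
  intro p k hp G _ hfg hm hexp
  have : Fact p.Prime := ⟨hp⟩
  obtain ⟨A, _, act, e, he1, he2, he3, he4⟩ := exA G hm
  have e0 : e 1 = 0 := by
    have := he1 1 (one_mem _) 1 (one_mem _)
    rw [mul_one] at this
    simpa using this
  have epow : ∀ a ∈ commutator G, ∀ n : ℕ, e (a ^ n) = n • e a := by
    intro a ha n
    induction n with
    | zero => rw [pow_zero, zero_smul, e0]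
    | succ n ih => rw [pow_succ, he1 _ (pow_mem ha n) _ ha, ih, succ_nsmul]
  have hA : ∀ x : A, (p ^ k) • x = 0 := by
    intro x
    obtain ⟨a, ha, rfl⟩ := he3 x
    rw [← epow a ha, hexp a ha, e0]
  refine ⟨ZMod p, Qp p A, inferInstance, inferInstance, inferInstance, indA p act,
    fun g => QuotientAddGroup.mk (e g), ⟨?_, ?_, ?_⟩, ?_⟩
  · intro a ha b hb
    rw [he1 a ha b hb]
    rfl
  · intro g a ha
    rw [he4 g a ha]
    rfl
  · rw [eq_top_iff]
    intro v _
    apply Submodule.subset_span
    induction v using QuotientAddGroup.induction_on with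
    | H x =>
      obtain ⟨a, ha, rfl⟩ := he3 x
      exact ⟨a, ha, rfl⟩
  · intro χ hχ B hB
    apply hχ
    classical
    -- lift of `B`
    have hlift : ∀ v : Qp p A, ∃ a ∈ commutator G, (QuotientAddGroup.mk (e a) : Qp p A) = v := by
      intro v
      induction v using QuotientAddGroup.induction_on with
      | H x =>
        obtain ⟨a, ha, rfl⟩ := he3 x
        exact ⟨a, ha, rfl⟩
    choose l hl1 hl2 using hlift
    refine h G hfg hm χ (B.image l) (fun b hb => ?_) ?_
    · obtain ⟨v, _, rfl⟩ := Finset.mem_image.1 hb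
      exact hl1 v
    -- the additive subgroup
    set HA : AddSubgroup A :=
      AddSubgroup.closure {x | ∃ g : G, ∃ b ∈ B.image l, 0 ≤ ev χ g ∧ x = act g (e b)} with hHA
    have h1 : ∀ v : Qp p A, ∃ y ∈ HA, (QuotientAddGroup.mk y : Qp p A) = v := by
      intro v
      have hv : v ∈ Submodule.span (ZMod p)
          {v | ∃ g : G, ∃ b ∈ B, 0 ≤ ev χ g ∧ v = indA p act g b} := by
        rw [hB]
        exact Submodule.mem_top
      induction hv using Submodule.span_induction with
      | mem x hx =>
        obtain ⟨g, b, hb, hg, rfl⟩ := hx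
        refine ⟨act g (e (l b)), AddSubgroup.subset_closure
          ⟨g, l b, Finset.mem_image_of_mem _ hb, hg, rfl⟩, ?_⟩
        rw [← indA_mk, hl2]
      | zero => exact ⟨0, zero_mem _, rfl⟩
      | add x y _ _ hx hy =>
        obtain ⟨x', hx1, rfl⟩ := hx
        obtain ⟨y', hy1, rfl⟩ := hy
        exact ⟨x' + y', add_mem hx1 hy1, rfl⟩
      | smul c x _ hx =>
        obtain ⟨x', hx1, rfl⟩ := hx
        refine ⟨c.val • x', nsmul_mem hx1 _, ?_⟩
        rw [smul_eq_val, QuotientAddGroup.mk_nsmul]
    have h2 : ∀ j : ℕ, ∀ x : A, ∃ y ∈ HA, ∃ z : A, x = y + (p ^ j) • z := by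
      intro j
      induction j with
      | zero => exact fun x => ⟨0, zero_mem _, x, by simp⟩
      | succ j ih =>
        intro x
        obtain ⟨y, hy, z, rfl⟩ := ih x
        obtain ⟨y', hy', hz⟩ := h1 (QuotientAddGroup.mk z)
        obtain ⟨w, hw⟩ := (QuotientAddGroup.eq.1 hz : -y' + z ∈ pA p A)
        have hz' : z = y' + p • w := by
          have : p • w = -y' + z := hw
          rw [this]
          abel
        refine ⟨y + (p ^ j) • y', add_mem hy (nsmul_mem hy' _), w, ?_⟩
        rw [hz', smul_add, pow_succ, mul_smul]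
        abel
    have h3 : ∀ x : A, x ∈ HA := by
      intro x
      obtain ⟨y, hy, z, rfl⟩ := h2 k x
      rw [hA z, add_zero]
      exact hy
    -- back to `G`
    have h4 : ∀ x ∈ HA, ∀ a ∈ commutator G, e a = x →
        a ∈ Subgroup.closure {x | ∃ g : G, ∃ b ∈ B.image l, 0 ≤ ev χ g ∧ x = g * b * g⁻¹} := by
      intro x hx
      induction hx using AddSubgroup.closure_induction with
      | mem x hx =>
        intro a ha hax
        obtain ⟨g, b, hb, hg, rfl⟩ := hx
        have hbc : b ∈ commutator G := by
          obtain ⟨v, _, rfl⟩ := Finset.mem_image.1 hb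
          exact hl1 v
        rw [← he4 g b hbc] at hax
        rw [he2 a ha _ (Subgroup.Normal.conj_mem inferInstance b hbc g) hax]
        exact Subgroup.subset_closure ⟨g, b, hb, hg, rfl⟩
      | zero =>
        intro a ha hax
        rw [he2 a ha 1 (one_mem _) (hax.trans e0.symm)]
        exact one_mem _
      | add x y _ _ hx hy =>
        intro a ha hax
        obtain ⟨b, hb, rfl⟩ := he3 x
        obtain ⟨c, hc, rfl⟩ := he3 y
        rw [← he1 b hb c hc] at hax
        rw [he2 a ha _ (mul_mem hb hc) hax]
        exact mul_mem (hx b hb rfl) (hy c hc rfl)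
      | neg x _ hx =>
        intro a ha hax
        obtain ⟨b, hb, rfl⟩ := he3 x
        have hinv : e b⁻¹ = - e b := by
          have := he1 b hb b⁻¹ (inv_mem hb)
          rw [mul_inv_cancel, e0] at this
          exact (neg_eq_of_add_eq_zero_right this.symm).symm
        rw [← hinv] at hax
        rw [he2 a ha _ (inv_mem hb) hax]
        exact inv_mem (hx b hb rfl)
    intro a ha
    exact h4 (e a) (h3 _) a ha rfl

end Pool.Agent.SM
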