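import Pool.Agent.Work.MP_e9e200_al.SM.Defs

/-!
# The `Σ^m`-conjecture for metabelian groups: statements

MAIN RESULTS.  (`S_GEN`) `G` finitely generated metabelian, `V` a vector space over a field `K` with
a linear action `ρ` of `G`, spanned by the image of an additive equivariant map `τ` of the
commutator subgroup; `χ 1, …, χ m` characters such that `V` is not finitely generated over
`K[G_{χ i}]` for all `i` (`NFG`).  Then `ℤ` is not `FP_m` over `ℤ[G_χ]`, `χ = ∑ χ i`.
(`S_MAIN`) If the commutator subgroup has exponent `p^k` then `ConvLe m Σ¹ᶜ ⊆ Σᵐᶜ`.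

See the notes of helper85 on the problem for the proof.  Every item is a `def S_X : Prop`; prove
`theorem prf_X : S_X` in the file `SM/I_X.lean` (namespace `Pool.Agent.SM`, auxiliary lemmas in
`Pool.Agent.SM.Xx`).
-/

set_option autoImplicit false

namespace Pool.Agent.SM

/-! ### Homological algebra -/

/-- A partial projective resolution of `M` with last terms `ι : B → C`: `0 → B → C → C_{n-1} → ⋯ →
C_0 → M → 0` with `C_i` projective. -/
def PCh (R : Type) [Ring R] (C B : Type) [AddCommGroup C] [Module R C] [AddCommGroup B]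
    [Module R B] (ι : B →ₗ[R] C) : ℕ → (M : Type) → [AddCommGroup M] → [Module R M] → Prop
  | 0, M, _, _ => ∃ f : C →ₗ[R] M, Function.Surjective f ∧ LinearMap.ker f = LinearMap.range ι
  | n + 1, M, _, _ => ∃ (C₀ : Type) (_ : AddCommGroup C₀) (_ : Module R C₀) (f : C₀ →ₗ[R] M),
      Module.Projective R C₀ ∧ Function.Surjective f ∧ PCh R C B ι n (LinearMap.ker f)

/-- [HL] (uses FPE) The homological lemma.  PROOF by induction on `n`, for all `C, B, ι, M`.

`n = 0`: `f : C → M` onto with kernel `ι B`; `g : P → M` onto, `P` finitely generated projective,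
`ker g` finitely generated.  Lifts `s : P → C`, `f s = g`, and `α : C → P`, `g α = f`
(`Module.projective_lifting_property`).  `c - s (α c)` is in `ker f = ι B`, so it is `ι (θ c)` for a
linear `θ : C → B` (`ι` injective; e.g. `LinearEquiv.ofInjective` and `codRestrict`).  `b - θ (ι b)`
is the element `b'` with `ι b' = s (α (ι b))`, `α (ι b) ∈ ker g`: so it lies in the image of `ker g`
under the linear map `ker g → B`, `x ↦ ι⁻¹ (s x)`, which is finitely generated.

`n + 1`: `f : C₀ → M` onto, `C₀` projective, `PCh n (ker f)`; `g : P → M` onto, `P` finitely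
generated projective, `FP (n+1) (ker g)`; `s : P → C₀` with `f s = g`.
 Case `n = 0`: `h : C → ker f` onto with kernel `ι B`.  The map `C × P → C₀`, `(c,p) ↦ h c + s p` is
 onto (given `c₀` choose `p` with `g p = f c₀`; `c₀ - s p ∈ ker f`), `C₀` is projective, so it
 splits and its kernel `C'` is a direct summand of `C × P`: projective, with a projection
 `π : C × P → C'`.  `C' → ker g`, `(c,p) ↦ -p` (or `p`) is onto, with kernel the image of
 `ι' : B → C'`, `b ↦ (ι b, 0)`.  Apply the case `0` to `ker g, C', B, ι'` and put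
 `θ c = θ' (π (c, 0))`.
 Case `n = n' + 1`: `h : C₁ → ker f` onto, `C₁` projective, `PCh n' (ker h)`.  As above
 `C₁' ⊆ C₁ × P` is projective and maps onto `ker g` with kernel isomorphic to `ker h`; `PCh n'` is
 invariant under isomorphisms (prove it as for `FP`), so `PCh n (ker g)` with the same `C, B, ι`,
 and the induction hypothesis gives `F, θ`. -/
def S_HL : Prop :=
  ∀ (R : Type) [Ring R] (n : ℕ) (C B : Type) [AddCommGroup C] [Module R C] [AddCommGroup B]
    [Module R B] (ι : B →ₗ[R] C), Module.Projective R C → Function.Injective ι →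
    ∀ (M : Type) [AddCommGroup M] [Module R M], PCh R C B ι n M → FP R (n + 1) M →
    ∃ (F : Finset B) (θ : C →ₗ[R] B), ∀ b : B, b - θ (ι b) ∈ Submodule.span R (F : Set B)

/-- [FPE] `FP` is invariant under isomorphisms.  PROOF: cases on `n`: `Module.Finite.equiv`; for
`n + 1` compose `f` with `e` and use the same kernel (`LinearEquiv.ker_comp`; to avoid casts prove
the statement by induction on `n` for all `M, N, e` and use
`LinearEquiv.ofEq _ _ (h : ker f = ker (e ∘ f))`). -/
def S_FPE : Prop :=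
  ∀ (R : Type) [Ring R] (n : ℕ) (M N : Type) [AddCommGroup M] [Module R M] [AddCommGroup N]
    [Module R N], (M ≃ₗ[R] N) → FP R n M → FP R n N

/-- [FPM] PROOF: induction on `n` for all `M`; `FP 1 M → FP 0 M`: `Module.Finite.of_surjective`. -/
def S_FPM : Prop :=
  ∀ (R : Type) [Ring R] (n : ℕ) (M : Type) [AddCommGroup M] [Module R M],
    FP R (n + 1) M → FP R n M

/-! ### Groups -/

/-- The commutator subgroup is commutative. -/
def Metab (G : Type) [Group G] : Prop :=
  ∀ a ∈ commutator G, ∀ b ∈ commutator G, a * b = b * a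

/-- `ρ` is a linear action of `G` on `V` and `τ` an additive equivariant map from the commutator
subgroup to `V` whose image spans `V`. -/
structure LinA {G K V : Type} [Group G] [Field K] [AddCommGroup V] [Module K V]
    (ρ : G →* (V →ₗ[K] V)) (τ : G → V) : Prop where
  /-- additive -/
  add : ∀ a ∈ commutator G, ∀ b ∈ commutator G, τ (a * b) = τ a + τ b
  /-- equivariant -/
  eqv : ∀ g : G, ∀ a ∈ commutator G, τ (g * a * g⁻¹) = ρ g (τ a)
  /-- spanning -/
  spn : Submodule.span K (τ '' (commutator G : Set G)) = ⊤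

/-- `V` is not finitely generated over `K[G_χ]`. -/
def NFG {G K V : Type} [Group G] [Field K] [AddCommGroup V] [Module K V]
    (ρ : G →* (V →ₗ[K] V)) (χ : Chr G) : Prop :=
  ∀ B : Finset V, Submodule.span K {v | ∃ g : G, ∃ b ∈ B, 0 ≤ ev χ g ∧ v = ρ g b} ≠ ⊤

/-- [NORM] The commutator subgroup is finitely generated as a normal subgroup.  PROOF: `S` a finite
generating set of `G` (`Group.FG`), `E = {[x,y] : x, y ∈ S}`, `N` the normal closure of `E`.  In
`G ⧸ N` the images of the generators commute, so `G ⧸ N` is commutative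
(`Subgroup.closure_induction` twice, or `Subgroup.closureCommGroupOfComm`-type lemma), so
`commutator G ≤ N`.  `N` is the closure of the set of conjugates of `E`
(`Subgroup.normalClosure`, `Group.conjugatesOfSet`). -/
def S_NORM : Prop :=
  ∀ (G : Type) [Group G], Group.FG G → ∃ E : Finset G, (∀ e ∈ E, e ∈ commutator G) ∧
    commutator G ≤ Subgroup.closure {x | ∃ g : G, ∃ e ∈ E, x = g * e * g⁻¹}

/-- [SIG] The criterion for `Σ¹`.  PROOF.  Write `M = mon χ`, `R = ℤ[M]`, `A = commutator G` (`≤ ker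
χ`, so `a ∈ M` for `a ∈ A`).  `FP 1` of `Triv M`: take `P = R` (free of rank one), `f` = the
augmentation `r ↦ aug r` (as `R`-linear map `R → Triv M`), onto; `ker f` must be finitely generated.
Let `S` be a finite symmetric generating set of `G` (add inverses), `Z` the finite set of the `z ∈ M`
which are in `S ∪ B ∪ B⁻¹`, `J` the left ideal generated by the `single z 1 - 1`, `z ∈ Z`
(clearly `J ≤ ker f`).  Write `g ≡ h` for `single g 1 - single h 1 ∈ J` (`g, h ∈ M`): an equivalence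
relation, `g ≡ h → k g ≡ k h` for `k ∈ M`, and `g z ≡ g` for `z ∈ Z`.  It is enough to prove `g ≡ 1`
for all `g ∈ M` (the kernel of the augmentation is spanned by the `single g 1 - 1`).
(1) If `s ∈ S`, `g ∈ M`, `g s ∈ M` then `g s ≡ g`: if `0 ≤ χ s` this is `z = s`, otherwise `s⁻¹ ∈ Z`
and `g = (g s) s⁻¹ ≡ g s`.  (2) Call `w ∈ G` good if there are `P, N ∈ G`, `w = P N`, `P` a product of
elements of `S` with `χ ≥ 0`, `N` a product of elements of `S` with `χ ≤ 0`.  Every `g ∈ G` is `a w`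
with `a ∈ A` and `w` good (induction over the generators: letters may be exchanged modulo `A`).
(3) If `w` is good, `w ∈ M`, `k ∈ A` then `k w ≡ k` (walk along `P`, the height increases from `0`;
then along `N`, the height decreases to `χ w ≥ 0`: all the intermediate points are in `M`; by (1)).
(4) If `g ∈ M`, `b ∈ B ∪ B⁻¹`, `k ∈ A` then `k g b g⁻¹ ≡ k`: `g = a w`, `w` good, `w ∈ M`, and
`g b g⁻¹ = w b w⁻¹ =: c` since `A` is commutative; `k c ≡ k c w = k w b ≡ k w ≡ k`.  (5) Hence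
`a ≡ 1` for all `a ∈ A` (`closure_induction`; prove `k a ≡ k` for all `k ∈ A`).  (6) `g ∈ M`:
`g = a w`, `w ∈ M` good, `g ≡ a ≡ 1`. -/
def S_SIG : Prop :=
  ∀ (G : Type) [Group G], Group.FG G → Metab G → ∀ (χ : Chr G) (B : Finset G),
    (∀ b ∈ B, b ∈ commutator G) →
    commutator G ≤ Subgroup.closure {x | ∃ g : G, ∃ b ∈ B, 0 ≤ ev χ g ∧ x = g * b * g⁻¹} →
    FP (MonoidAlgebra ℤ (mon χ)) 1 (Triv (mon χ))

/-- [PK] (uses SIG) Exponent `p^k`.  PROOF: `A` = the commutator subgroup as an additive group (`Additive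
(commutator G)` with the commutative group structure from `Metab`), `V = A ⧸ pA` with the
`ZMod p`-module structure (`AddCommGroup.zmodModule`), `ρ g` induced by conjugation, `τ a` = the
class of `a` (`0` outside).  `LinA` is clear.  If `NFG` fails for `χ`: a finite set `B` of classes
with `V` spanned by the `ρ g b`, `0 ≤ χ g`; lift `B` to a finite set `B'` in `A`, let `H` be the
subgroup generated by the `g b g⁻¹`, `0 ≤ χ g`, `b ∈ B'`.  `A = H + pA` (every scalar of `ZMod p` is
an integer), hence `A = H + p^j A` for all `j`, and `p^k A = 0`: `A = H`.  By SIG `Triv` is `FP 1`. -/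
def S_PK : Prop :=
  ∀ (p k : ℕ), p.Prime → ∀ (G : Type) [Group G], Group.FG G → Metab G →
    (∀ a ∈ commutator G, a ^ (p ^ k) = 1) →
    ∃ (K V : Type) (_ : Field K) (_ : AddCommGroup V) (_ : Module K V)
      (ρ : G →* (V →ₗ[K] V)) (τ : G → V), LinA ρ τ ∧
      ∀ χ : Chr G, ¬ FP (MonoidAlgebra ℤ (mon χ)) 1 (Triv (mon χ)) → NFG ρ χ

/-- [FUN] (uses NORM) Functionals.  PROOF.  `E` from NORM, `Vt i t` = the span of the `ρ g (τ e)`, `e ∈ E`,
`t ≤ χ i g`.  `τ` of a conjugate of `e` is `ρ g (τ e)`, so by `add`, `spn` every vector is in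
some `Vt i t` (finite combination, `t` = minimum; `Vt i` is antitone).  `ρ g (Vt i t) ≤ Vt i (t + χ i
g)` is clear.  (1) `Vt i t ≠ ⊤`: NFG for `B = τ E` gives `Vt i 0 ≠ ⊤`; if `Vt i t = ⊤` apply `ρ (g₁^n)`,
`χ i g₁ > 0`, `n` large, which is bijective (`χ i ≠ 0`: if `χ i = 0` then `Vt i t = ⊤` for `t ≤ 0`,
contradicting NFG).  (2) There is `g₀` with `χ i g₀ ≠ 0` for all `i` (induction: `g^n h`).
`δ g = τ (g g₀ g⁻¹ g₀⁻¹)`; `δ (g h) = δ g + ρ g (δ h)` because `[gh, g₀] = g [h,g₀] g⁻¹ [g,g₀]`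
(and commutators commute).  For `a ∈ commutator G`: `δ a = τ a - ρ g₀ (τ a)`.  (3) If
`x - ρ g₀ x ∈ Vt i s` then `x ∈ Vt i s`: let `x ∈ Vt i s'`; if `χ i g₀ > 0`:
`x = (x - ρ g₀ x) + ρ g₀ x ∈ Vt i (min s (s' + χ i g₀))`, iterate; if `χ i g₀ < 0`: `y = x - ρ g₀ x`,
`x = ρ g₀⁻¹ x - ρ g₀⁻¹ y`, similarly.  (4) For `W` a finite set of vectors there is
`a ∈ commutator G` with `δ a ∉ Vt i s ⊔ span W`: otherwise, `W ⊆ Vt i s'`, `s' ≤ s`, and `x - ρ g₀ x ∈
Vt i s'` for all `x = τ a`, so for all `x` (linear, `spn`), so `Vt i s' = ⊤` by (3), against (1).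
(5) Choose `a 0, a 1, …` successively with `δ (a i) ∉ Vt i (s i) ⊔ span {δ (a j) : j < i}` and `f i`
a functional which is `0` on this subspace and `1` at `δ (a i)`
(`Submodule.exists_dual_forall_apply_eq_zero_iff`-type lemma or
`Submodule.exists_le_ker_of_notMem`). -/
def S_FUN : Prop :=
  ∀ (G K V : Type) [Group G] [Field K] [AddCommGroup V] [Module K V] (ρ : G →* (V →ₗ[K] V))
    (τ : G → V) (m : ℕ) (χ : Fin m → Chr G), Group.FG G → Metab G → LinA ρ τ →
    (∀ i, NFG ρ (χ i)) → ∃ (δ : G → V) (Vt : Fin m → ℝ → Submodule K V),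
      (∀ g h : G, δ (g * h) = δ g + ρ g (δ h)) ∧
      (∀ i v, ∃ t, v ∈ Vt i t) ∧ (∀ i s t, s ≤ t → Vt i t ≤ Vt i s) ∧
      (∀ i g t, ∀ v ∈ Vt i t, ρ g v ∈ Vt i (t + ev (χ i) g)) ∧
      ∀ s : Fin m → ℝ, ∃ (a : Fin m → G) (f : Fin m → (V →ₗ[K] K)),
        (∀ i, a i ∈ commutator G) ∧ (∀ i, ∀ v ∈ Vt i (s i), f i v = 0) ∧
        (∀ i, f i (δ (a i)) = 1) ∧ ∀ i j, j < i → f i (δ (a j)) = 0

/-- [GEN] The general theorem. -/
def S_GEN : Prop :=
  ∀ (G K V : Type) [Group G] [Field K] [AddCommGroup V] [Module K V] (ρ : G →* (V →ₗ[K] V))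
    (τ : G → V) (m : ℕ) (χ : Fin m → Chr G), Group.FG G → Metab G → LinA ρ τ → 1 ≤ m →
    (∀ i, NFG ρ (χ i)) →
    ¬ FP (MonoidAlgebra ℤ (mon (∑ i, χ i))) m (Triv (mon (∑ i, χ i)))

/-- [CONV] (uses FPM) Convex hulls.  PROOF: `v ≠ 0` in the convex hull of `s`, `card s = m`:
`v = ∑ x ∈ s, w x • x`, `w x ≥ 0`, `∑ w x = 1` (`Finset.mem_convexHull`, `Finset.centerMass`).  Let `s'` be
the set of `x ∈ s` with `w x > 0`, `m' = card s'`, `1 ≤ m' ≤ m`.  `w x • x ∈ SigmaC G 1`: nonzero, and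
`mon (c • χ) = mon χ` for `c > 0` (rewrite; or transport).  Enumerate `s'` (`Finset.equivFin`) and
apply the hypothesis: `v ∈ SigmaC G m'`; `FP m → FP m'` by FPM. -/
def S_CONV : Prop :=
  ∀ (G : Type) [Group G],
    (∀ (m : ℕ) (χ : Fin m → Chr G), 1 ≤ m → (∀ i, χ i ∈ SigmaC G 1) → ∑ i, χ i ≠ 0 →
      ∑ i, χ i ∈ SigmaC G m) →
    ∀ m : ℕ, 1 ≤ m → ConvLe m (SigmaC G 1) ⊆ SigmaC G m

/-- [MAIN] The main theorem. -/
def S_MAIN : Prop :=
  ∀ (p k : ℕ), p.Prime → ∀ (G : Type) [Group G], Group.FG G → Metab G →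
    (∀ a ∈ commutator G, a ^ (p ^ k) = 1) →
    ∀ m : ℕ, 1 ≤ m → ConvLe m (SigmaC G 1) ⊆ SigmaC G m

theorem prf_MAIN (h1 : S_GEN) (h2 : S_PK) (h3 : S_CONV) : S_MAIN := by
  intro p k hp G _ hfg hm hA m h1m
  refine h3 G (fun m χ hm1 hχ h0 => ⟨h0, ?_⟩) m h1m
  obtain ⟨K, V, _, _, _, ρ, τ, hl, hn⟩ := h2 p k hp G hfg hm hA
  exact h1 G K V ρ τ m χ hfg hm hl hm1 (fun i => hn _ (hχ i).2)

end Pool.Agent.SM
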